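import Mathlib
import Pool.Agent.R53.RestSum
import Pool.Agent.R53.RestSumB

/-!
# MP_09e4ca_co (partial): triples for which the upper bound is not attained, by complementation
-/

namespace Pool.Agent.Results.MP_09e4ca_co.ComplementFamily

open Finset

/-- the `h`-fold sumset `hA`: all `a₁ + ⋯ + a_h` with `a_i ∈ A`, repetitions allowed -/
def hfold {G : Type*} [AddCommGroup G] [DecidableEq G] (A : Finset G) : ℕ → Finset G
  | 0 => {0}
  | h + 1 => (hfold A h ×ˢ A).image (fun p => p.1 + p.2)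

/-- the restricted `h`-fold sumset: all sums of `h` pairwise distinct elements of `A` -/
def hhat {G : Type*} [AddCommGroup G] [DecidableEq G] (A : Finset G) (h : ℕ) : Finset G :=
  (A.powersetCard h).image (fun s => ∑ x ∈ s, x)

/-- `u(n,m,h)`: the minimum of `|hA|` over the `m`-subsets `A` of `ZMod n` -/
noncomputable def u (n m h : ℕ) : ℕ :=
  sInf {t | ∃ A : Finset (ZMod n), A.card = m ∧ (hfold A h).card = t}

/-- `û(n,m,h)`: the minimum of `|h^A|` over the `m`-subsets `A` of `ZMod n` -/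
noncomputable def uhat (n m h : ℕ) : ℕ :=
  sInf {t | ∃ A : Finset (ZMod n), A.card = m ∧ (hhat A h).card = t}

theorem hfold_eq {G : Type*} [AddCommGroup G] [DecidableEq G] (A : Finset G) : ∀ h : ℕ,
    hfold A h = R53.RestSum.hfold A h
  | 0 => rfl
  | h + 1 => by rw [hfold, R53.RestSum.hfold, hfold_eq A h]

theorem u_eq (n m h : ℕ) : u n m h = R53.RestSum.u n m h := by
  unfold u R53.RestSum.u
  congr 1
  ext t
  simp only [hfold_eq]

theorem uhat_eq (n m h : ℕ) : uhat n m h = R53.RestSum.uhat n m h := rfl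

theorem result :
    -- complementation: the minima for `h` and `m - h` agree, so `û(n,m,h) ≤ u(n,m,m-h)`
    (∀ n m h : ℕ, 0 < h → h < m → m ≤ n →
      uhat n m h = uhat n m (m - h) ∧ uhat n m h ≤ u n m (m - h)) ∧
    -- an infinite family of triples `(n,m,h) = (dN, jd, jd-k)` where the bound is not attained
    (∀ k d j N : ℕ, 2 ≤ k → k + 2 ≤ d → 2 ≤ j → (k * (j - 1) + 1) * d < N.minFac →
      0 < j * d - k ∧ j * d - k < j * d ∧ j * d ≤ d * N ∧
      Nat.gcd (Nat.gcd (d * N) (j * d)) (j * d - k) = Nat.gcd d k ∧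
      uhat (d * N) (j * d) (j * d - k) ≤ (k * (j - 1) + 1) * d ∧
      (k * (j - 1) + 1) * d <
        min (u (d * N) (j * d) (j * d - k)) ((j * d - k) * (j * d) - (j * d - k) ^ 2 + 1)) := by
  constructor
  · intro n m h h0 hm hn
    rw [uhat_eq, uhat_eq, u_eq]
    have h1 := R53.RestSum.uhat_symm n m h hm.le
    refine ⟨h1.symm, ?_⟩
    rw [← h1]
    exact R53.RestSum.uhat_le_u n m (m - h) (by omega) hn
  · intro k d j N hk hd hj hq
    obtain ⟨J, rfl⟩ : ∃ J, j = J + 2 := ⟨j - 2, by omega⟩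
    obtain ⟨e, rfl⟩ : ∃ e, d = k + 2 + e := ⟨d - (k + 2), by omega⟩
    have e1 : J + 2 - 1 = J + 1 := by omega
    have hb1 : 2 * (J + 1) ≤ k * (J + 1) := Nat.mul_le_mul_right _ hk
    have hb2 : (2 * J + 3) * 4 ≤ (k * (J + 1) + 1) * (k + 2 + e) :=
      Nat.mul_le_mul (by omega) (by omega)
    have hbig : J + 2 < (k * (J + 1) + 1) * (k + 2 + e) := by omega
    have h12 : 12 ≤ (k * (J + 1) + 1) * (k + 2 + e) := by omega
    rw [e1] at hq ⊢
    have hN : 2 ≤ N := by
      by_contra hcon
      have : N = 0 ∨ N = 1 := by omega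
      rcases this with h | h
      · rw [h, Nat.minFac_zero] at hq; omega
      · rw [h, Nat.minFac_one] at hq; omega
    have hmf : N.minFac ≤ N := Nat.minFac_le (by omega)
    have hjN : J + 2 ≤ N := by omega
    have hkm : k + (k + 2) ≤ (J + 2) * (k + 2 + e) := by nlinarith
    have hh : k + 2 ≤ (J + 2) * (k + 2 + e) - k := by omega
    have hcop : Nat.gcd N (J + 2) = 1 := Nat.coprime_of_lt_minFac (by omega) (by omega)
    refine ⟨by omega, by omega, ?_, ?_, ?_, ?_⟩
    · rw [mul_comm]; exact Nat.mul_le_mul_left _ hjN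
    · have g1 : Nat.gcd ((k + 2 + e) * N) ((J + 2) * (k + 2 + e)) = k + 2 + e := by
        rw [mul_comm (J + 2), Nat.gcd_mul_left, hcop, mul_one]
      rw [g1]
      apply Nat.dvd_antisymm
      · apply Nat.dvd_gcd (Nat.gcd_dvd_left _ _)
        have h1 : Nat.gcd (k + 2 + e) ((J + 2) * (k + 2 + e) - k) ∣ (J + 2) * (k + 2 + e) :=
          Dvd.dvd.mul_left (Nat.gcd_dvd_left _ _) _
        have h2 := Nat.gcd_dvd_right (k + 2 + e) ((J + 2) * (k + 2 + e) - k)
        have h3 := Nat.dvd_sub h1 h2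
        rwa [Nat.sub_sub_self (by omega)] at h3
      · apply Nat.dvd_gcd (Nat.gcd_dvd_left _ _)
        exact Nat.dvd_sub (Dvd.dvd.mul_left (Nat.gcd_dvd_left _ _) _) (Nat.gcd_dvd_right _ _)
    · rw [uhat_eq, R53.RestSum.uhat_symm _ _ _ (by omega)]
      have := R53.RestSum.uhat_small (d := k + 2 + e) (N := N) (j := J + 2) (k := k)
        (by omega) (by omega) (by omega) hjN
      rwa [e1] at this
    · rw [lt_min_iff, u_eq]
      constructor
      · have := R53.RestSum.u_large (d := k + 2 + e) (N := N) (j := J + 2) (k := k)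
          (h := (J + 2) * (k + 2 + e) - k) (by omega) hN (by omega) hh hjN (by rw [e1]; exact hq)
        rwa [e1] at this
      · obtain ⟨h, hh'⟩ : ∃ h, (J + 2) * (k + 2 + e) = h + k :=
          ⟨(J + 2) * (k + 2 + e) - k, by omega⟩
        rw [hh', Nat.add_sub_cancel]
        have g2 : h * (h + k) - h ^ 2 = h * k := by
          have : h * (h + k) = h * k + h ^ 2 := by ring
          omega
        rw [g2]
        obtain ⟨K, rfl⟩ : ∃ K, k = K + 2 := ⟨k - 2, by omega⟩
        have g3 : ((J + 2) * (K + 2 + 2 + e)) * (K + 2) = (h + (K + 2)) * (K + 2) := by rw [hh']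
        nlinarith [g3, Nat.zero_le (K * e)]

end Pool.Agent.Results.MP_09e4ca_co.ComplementFamily
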